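import Pool.Agent.TH3.IR.Window
import Pool.Agent.TH176.FB.Fat2
import Pool.Agent.TH176.FB.J25

set_option autoImplicit false

/-!
# The Laface–Ugaglia conjecture for many general points of `ℙ³`, outside bounded windows of degrees

For general points of `ℙ³` (with one nonempty open set for all the degrees `d` in parts 1 and 2) and
`ℒ = ℒ_{3,d}(m_1, …, m_s)`, where the multiplicities `m_1, …, m_s ≥ 0` are arbitrary:

1. Let `t ≥ 3` and `s ≤ t ^ 3`. If `d ≥ t * m_i + t - 2` for all `i`, then `ℒ` has dimension `vdim ℒ`,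
   and neither condition 1 (lines) nor condition 2 (quadrics) of the conjecture holds. For `s ≤ 27` the
   condition on the degree is `d ≥ 3 * m_i + 1`.
2. Let `s ≥ 27`. If `s ^ (2/3) * d < m_1 + … + m_s`, then `ℒ` is empty. If
   `d ≥ s ^ (1/3) * (m_i + 2) + 2` for all `i`, then the conclusion of part 1 holds. For equal
   multiplicities `m` these are all the degrees but those of an interval of length
   `2 * (s ^ (1/3) + 1)`, which does not depend on `m`.
3. Let `s = t ^ 3`, `t ≥ 3`, and let all the multiplicities be equal. Then `ℒ` is not special and the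
   statement of the conjecture holds for all `d` if `t ≤ 5`, that is, for 27, 64 and 125 points, and
   with finitely many possible exceptions `(m, d)` for every `t ≥ 6`.

In all these cases the statement of the conjecture (`LafaceUgaglia`) holds.

Part 2 is from the theorem `main_window` of `Pool/Agent/TH3/IR`, part 3 from `fat_space` of
`Pool/Agent/TH176/FB`, and part 1 from the case of `t ^ 3` points of equal multiplicity on a complete
intersection curve.
-/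

namespace Pool.Agent.Results.MP_ed30a9_ag.ManyPoints

open MvPolynomial
open scoped LinearAlgebra.Projectivization
open Pool.Agent.H350R3.MG

/-- The vector space of the forms of degree `d` with multiplicity at least `m i` at the point `P i` of
`ℙ³` for every `i`. The nonzero ones define the surfaces of `ℒ = ℒ_{3,d}(m_1, …, m_s)`. -/
noncomputable def forms {s : ℕ} (d : ℕ) (m : Fin s → ℕ) (P : Fin s → ℙ ℂ (Fin (3 + 1) → ℂ)) :
    Submodule ℂ (MvPolynomial (Fin (3 + 1)) ℂ) :=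
  homogeneousSubmodule (Fin (3 + 1)) ℂ d ⊓
    Submodule.restrictScalars ℂ (⨅ i, primeIdeal (P i) ^ m i : Ideal (MvPolynomial (Fin (3 + 1)) ℂ))

/-- The projective dimension of `ℒ` (`-1` if it is empty). -/
noncomputable def dim {s : ℕ} (d : ℕ) (m : Fin s → ℕ) (P : Fin s → ℙ ℂ (Fin (3 + 1) → ℂ)) : ℤ :=
  (Module.finrank ℂ ↥(forms d m P) : ℤ) - 1

/-- The virtual dimension. -/
def vdim {s : ℕ} (d : ℕ) (m : Fin s → ℕ) : ℤ :=
  ((d + 3).choose 3 : ℤ) - ∑ i, ((m i + 2).choose 3 : ℤ) - 1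

/-- The expected dimension. -/
def edim {s : ℕ} (d : ℕ) (m : Fin s → ℕ) : ℤ := max (vdim d m) (-1)

/-- `ℒ` is special. -/
def Special {s : ℕ} (d : ℕ) (m : Fin s → ℕ) (P : Fin s → ℙ ℂ (Fin (3 + 1) → ℂ)) : Prop :=
  edim d m < dim d m P

/-- `ℒ` is Cremona reduced. -/
def CremonaReduced {s : ℕ} (d : ℕ) (m : Fin s → ℕ) : Prop :=
  ∀ I : Finset (Fin s), I.card = 4 → ∑ i ∈ I, m i ≤ 2 * d

/-- The divisor classes of the blow-up: `(a, x)` is the class `a H - ∑ x_i E_i`. -/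
abbrev Cls (s : ℕ) : Type := ℤ × (Fin s → ℤ)

/-- The triple intersection numbers of the classes `a H - ∑ x_i E_i`, computed with `H ^ 3 = 1`,
`E_i ^ 3 = 1`, all the other triple products of these generators being `0`. -/
def triple {s : ℕ} (D D' D'' : Cls s) : ℤ := D.1 * D'.1 * D''.1 - ∑ i, D.2 i * D'.2 i * D''.2 i

/-- The class of `ℒ`. -/
def cls {s : ℕ} (d : ℕ) (m : Fin s → ℕ) : Cls s := ((d : ℤ), fun i => (m i : ℤ))

/-- The canonical class `-4 H + 2 ∑ E_i`. -/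
def canonical {s : ℕ} : Cls s := (-4, fun _ => -2)

/-- The class `2 H - ∑_{i ∈ I} E_i` of the quadric through the points of `I`. -/
def quadric {s : ℕ} (I : Finset (Fin s)) : Cls s := (2, fun i => if i ∈ I then 1 else 0)

/-- Condition 1: `ℒ · ⟨p_i, p_j⟩ ≤ -2` for some `i ≠ j`. -/
def LineCondition {s : ℕ} (d : ℕ) (m : Fin s → ℕ) : Prop :=
  ∃ i j : Fin s, i ≠ j ∧ (d : ℤ) - m i - m j ≤ -2

/-- Condition 2: `Q · (ℒ - Q) · (ℒ - K) < 0` for the quadric `Q` through nine of the points. -/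
def QuadricCondition {s : ℕ} (d : ℕ) (m : Fin s → ℕ) : Prop :=
  ∃ I : Finset (Fin s), I.card = 9 ∧
    triple (quadric I) (cls d m - quadric I) (cls d m - canonical) < 0

/-- The statement of the conjecture of Laface and Ugaglia for `ℒ_{3,d}(m_1, …, m_s)` and the points
`P`: if `ℒ` is nonempty and Cremona reduced, it is special if and only if condition 1 or 2 holds. -/
def LafaceUgaglia {s : ℕ} (d : ℕ) (m : Fin s → ℕ) (P : Fin s → ℙ ℂ (Fin (3 + 1) → ℂ)) : Prop :=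
  forms d m P ≠ ⊥ → CremonaReduced d m →
    (Special d m P ↔ LineCondition d m ∨ QuadricCondition d m)

theorem not_special {s : ℕ} {d : ℕ} {m : Fin s → ℕ} {P : Fin s → ℙ ℂ (Fin (3 + 1) → ℂ)}
    (h : dim d m P = vdim d m) : ¬ Special d m P := by
  unfold Special edim
  rw [h]
  exact not_lt.2 (le_max_left _ _)

theorem lu_of_not {s : ℕ} {d : ℕ} {m : Fin s → ℕ} {P : Fin s → ℙ ℂ (Fin (3 + 1) → ℂ)}
    (h1 : ¬ Special d m P) (h2 : ¬ LineCondition d m) (h3 : ¬ QuadricCondition d m) :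
    LafaceUgaglia d m P := by
  intro _ _
  constructor
  · intro h
    exact absurd h h1
  · rintro (h | h)
    · exact absurd h h2
    · exact absurd h h3

theorem triple_quadric {s : ℕ} (d : ℕ) (m : Fin s → ℕ) (I : Finset (Fin s)) :
    triple (quadric I) (cls d m - quadric I) (cls d m - canonical) =
      2 * ((d : ℤ) - 2) * ((d : ℤ) + 4) - ∑ i ∈ I, ((m i : ℤ) - 1) * ((m i : ℤ) + 2) := by
  classical
  unfold triple quadric cls canonical
  have h : ∀ i : Fin s, (if i ∈ I then (1 : ℤ) else 0) *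
      ((m i : ℤ) - if i ∈ I then (1 : ℤ) else 0) * ((m i : ℤ) - (-2)) =
      if i ∈ I then ((m i : ℤ) - 1) * ((m i : ℤ) + 2) else 0 := by
    intro i
    split_ifs <;> ring
  have h2 : ∑ i : Fin s, (if i ∈ I then (1 : ℤ) else 0) *
      ((m i : ℤ) - if i ∈ I then (1 : ℤ) else 0) * ((m i : ℤ) - (-2)) =
      ∑ i ∈ I, ((m i : ℤ) - 1) * ((m i : ℤ) + 2) := by
    rw [Finset.sum_congr rfl fun i _ => h i, Finset.sum_ite_mem, Finset.univ_inter]
  have h3 : (2 : ℤ) * ((d : ℤ) - 2) * ((d : ℤ) - (-4)) = 2 * ((d : ℤ) - 2) * ((d : ℤ) + 4) := by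
    ring
  calc _ = (2 : ℤ) * ((d : ℤ) - 2) * ((d : ℤ) - (-4)) -
        ∑ i : Fin s, (if i ∈ I then (1 : ℤ) else 0) *
          ((m i : ℤ) - if i ∈ I then (1 : ℤ) else 0) * ((m i : ℤ) - (-2)) := rfl
    _ = _ := by rw [h2, h3]

theorem not_line {s d : ℕ} {m : Fin s → ℕ} (h : ∀ i, 3 * m i ≤ d) : ¬ LineCondition d m := by
  rintro ⟨i, j, _, hij⟩
  have h1 := h i
  have h2 := h j
  omega

theorem not_quadric {s d : ℕ} {m : Fin s → ℕ}
    (h : ∀ i, 9 * (((m i : ℤ) - 1) * ((m i : ℤ) + 2)) ≤ 2 * ((d : ℤ) - 2) * ((d : ℤ) + 4)) :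
    ¬ QuadricCondition d m := by
  rintro ⟨I, hI, hlt⟩
  rw [triple_quadric] at hlt
  have h1 : 9 * ∑ i ∈ I, ((m i : ℤ) - 1) * ((m i : ℤ) + 2) ≤
      9 * (2 * ((d : ℤ) - 2) * ((d : ℤ) + 4)) := by
    rw [Finset.mul_sum]
    calc _ ≤ ∑ _i ∈ I, 2 * ((d : ℤ) - 2) * ((d : ℤ) + 4) := Finset.sum_le_sum fun i _ => h i
      _ = 9 * (2 * ((d : ℤ) - 2) * ((d : ℤ) + 4)) := by
        rw [Finset.sum_const, hI, nsmul_eq_mul]
        norm_num
  linarith

theorem not_quadric_of {s d : ℕ} {m : Fin s → ℕ} (h : ∀ i, 3 * m i ≤ d) :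
    ¬ QuadricCondition d m := by
  apply not_quadric
  intro i
  have h3 : 3 * (m i : ℤ) ≤ d := by exact_mod_cast h i
  have h4 : (0 : ℤ) ≤ m i := Int.natCast_nonneg _
  nlinarith [mul_nonneg (sub_nonneg.2 h3) (by linarith : (0 : ℤ) ≤ d + 3 * m i)]

/-- independent conditions in a degree `d ≥ 3 m_i` -/
theorem good {s d : ℕ} {m : Fin s → ℕ} {P : Fin s → ℙ ℂ (Fin (3 + 1) → ℂ)}
    (h : ∑ i, (m i + 2).choose 3 + Module.finrank ℂ ↥(forms d m P) = (d + 3).choose 3)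
    (h3 : ∀ i, 3 * m i ≤ d) :
    dim d m P = vdim d m ∧ ¬ LineCondition d m ∧ ¬ QuadricCondition d m ∧
      LafaceUgaglia d m P := by
  have h1 : dim d m P = vdim d m := by
    unfold dim vdim
    have h4 : ((∑ i, (m i + 2).choose 3 + Module.finrank ℂ ↥(forms d m P) : ℕ) : ℤ) =
        ((d + 3).choose 3 : ℕ) := by rw [h]
    push_cast at h4
    linarith
  exact ⟨h1, not_line h3, not_quadric_of h3,
    lu_of_not (not_special h1) (not_line h3) (not_quadric_of h3)⟩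

theorem three_le {s : ℕ} (hs : 27 ≤ s) : (3 : ℝ) ≤ (s : ℝ) ^ ((1 : ℝ) / 3) := by
  have h1 : (3 : ℝ) = ((3 : ℝ) ^ (3 : ℝ)) ^ ((1 : ℝ) / 3) := by
    rw [← Real.rpow_mul (by norm_num)]
    norm_num
  have h2 : ((3 : ℝ) ^ (3 : ℝ)) ≤ (s : ℝ) := by
    have h3 : (3 : ℝ) ^ (3 : ℝ) = 27 := by
      have : (3 : ℝ) ^ ((3 : ℕ) : ℝ) = 27 := by
        rw [Real.rpow_natCast]
        norm_num
      simpa using this
    rw [h3]
    exact_mod_cast hs
  calc (3 : ℝ) = ((3 : ℝ) ^ (3 : ℝ)) ^ ((1 : ℝ) / 3) := h1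
    _ ≤ (s : ℝ) ^ ((1 : ℝ) / 3) := Real.rpow_le_rpow (by positivity) h2 (by norm_num)

theorem partA (s : ℕ) (hs : 27 ≤ s) (m : Fin s → ℕ) :
    Generally (fun P : Fin s → ℙ ℂ (Fin (3 + 1) → ℂ) => ∀ d : ℕ,
      ((s : ℝ) ^ ((2 : ℝ) / 3) * d < ∑ i, (m i : ℝ) → forms d m P = ⊥) ∧
      ((∀ i, (s : ℝ) ^ ((1 : ℝ) / 3) * ((m i : ℝ) + 2) + 2 ≤ d) →
        dim d m P = vdim d m ∧ ¬ LineCondition d m ∧ ¬ QuadricCondition d m ∧
          LafaceUgaglia d m P)) := by
  obtain ⟨U, hU, hU', h⟩ := TH3.IR.main_window (r := 3) (by norm_num)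
    (by norm_num; exact hs : 3 ^ 3 ≤ s) m
  refine ⟨U, hU, hU', fun P hP d => ⟨fun hd => ?_, fun hd => ?_⟩⟩
  · refine ((h P hP d).1 ?_).1
    have e : (((3 : ℕ) : ℝ) - 1) / ((3 : ℕ) : ℝ) = (2 : ℝ) / 3 := by norm_num
    rw [e]
    exact hd
  · have e : 1 / ((3 : ℕ) : ℝ) = (1 : ℝ) / 3 := by norm_num
    have h1 := (h P hP d).2 (fun i => by
      rw [e]
      have := hd i
      push_cast
      have e2 : (m i : ℝ) + 3 - 1 = (m i : ℝ) + 2 := by ring
      rw [e2]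
      linarith)
    have h2 : ∀ i, 3 * m i ≤ d := by
      intro i
      have h3 := hd i
      have h4 := three_le hs
      have h5 : (0 : ℝ) ≤ (m i : ℝ) := Nat.cast_nonneg _
      have h6 : (3 : ℝ) * ((m i : ℝ) + 2) ≤ (s : ℝ) ^ ((1 : ℝ) / 3) * ((m i : ℝ) + 2) :=
        mul_le_mul_of_nonneg_right h4 (by linarith)
      have h7 : ((3 * m i : ℕ) : ℝ) ≤ (d : ℝ) := by
        push_cast
        linarith
      exact_mod_cast h7
    exact good h1 h2

/-! ### At most `t ^ 3` points -/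

open Pool.Agent.H932R5 in
theorem surj_restrict {E N s μ : ℕ} (hs : s ≤ N) {m : Fin s → ℕ} (hm : ∀ i, m i ≤ μ)
    {P : Fin N → Fin (E + 1) → ℂ} {d : ℕ} (h : SurjAt (fun _ : Fin N => μ) P d) :
    SurjAt m (fun i => P (Fin.castLE hs i)) d := by
  classical
  intro y
  let y' : Cnd E (fun _ : Fin N => μ) → ℂ := fun q =>
    if h : ∃ h1 : q.1.1 < s, q.2.1 ∈ dg E (m ⟨q.1.1, h1⟩) then
      y ⟨⟨q.1.1, h.1⟩, ⟨q.2.1, h.2⟩⟩ else 0
  obtain ⟨f, hf, hfy⟩ := h y'
  refine ⟨f, hf, ?_⟩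
  funext q
  have h1 : q.2.1 ∈ dg E μ := mem_dg.2 ((mem_dg.1 q.2.2).trans_le (hm q.1))
  have h2 := congrFun hfy ⟨Fin.castLE hs q.1, ⟨q.2.1, h1⟩⟩
  rw [cnd_apply] at h2 ⊢
  rw [h2]
  have h3 : ∃ h1 : (Fin.castLE hs q.1).1 < s, q.2.1 ∈ dg E (m ⟨(Fin.castLE hs q.1).1, h1⟩) :=
    ⟨q.1.2, q.2.2⟩
  show (if h : ∃ h1 : (Fin.castLE hs q.1).1 < s, q.2.1 ∈ dg E (m ⟨(Fin.castLE hs q.1).1, h1⟩) then
    y ⟨⟨(Fin.castLE hs q.1).1, h.1⟩, ⟨q.2.1, h.2⟩⟩ else 0) = y q
  rw [dif_pos h3]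
  rfl

theorem six_choose (n : ℕ) : 6 * (n + 2).choose 3 = (n + 2) * (n + 1) * n := by
  have h := Nat.descFactorial_eq_factorial_mul_choose (n + 2) 3
  have e1 : (n + 2).descFactorial 3 = (n + 2) * (n + 1) * n := by
    simp [Nat.descFactorial]
    ring
  have e2 : Nat.factorial 3 = 6 := rfl
  rw [e1, e2] at h
  exact h.symm

/-- the number of conditions -/
theorem num {t μ d : ℕ} (ht : 1 ≤ t) (hd : t * μ + t ≤ d + 2) :
    t ^ 3 * (μ + 2).choose 3 ≤ (d + 3).choose 3 := by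
  have h1 := six_choose μ
  have h2 := six_choose (d + 1)
  have e : d + 1 + 2 = d + 3 := by ring
  rw [e] at h2
  have h3 : t ^ 3 * ((μ + 2) * (μ + 1) * μ) ≤ (d + 3) * (d + 1 + 1) * (d + 1) := by
    have h4 : t * (μ + 1) ≤ d + 2 := by linarith
    zify at h4 ht ⊢
    set a : ℤ := t * ((μ : ℤ) + 1) with ha
    have h5 : (0 : ℤ) ≤ μ := Int.natCast_nonneg _
    have h6 : (μ : ℤ) + 1 ≤ a := by
      rw [ha]
      nlinarith
    have h7 : (t : ℤ) ^ 3 * (((μ : ℤ) + 2) * (μ + 1) * μ) = a ^ 3 - t ^ 2 * a := by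
      rw [ha]
      ring
    have h8 : a ≤ (t : ℤ) ^ 2 * a := by nlinarith [mul_nonneg (sub_nonneg.2 ht) (sub_nonneg.2 ht)]
    have h9 : ((d : ℤ) + 3) * (d + 1 + 1) * (d + 1) = (d + 2) ^ 3 - (d + 2) := by ring
    rw [h7, h9]
    have h10 : a ^ 3 - a ≤ ((d : ℤ) + 2) ^ 3 - (d + 2) := by
      nlinarith [mul_nonneg (sub_nonneg.2 h4) (by nlinarith :
        (0 : ℤ) ≤ ((d : ℤ) + 2) ^ 2 + (d + 2) * a + a ^ 2 - 1)]
    linarith
  have h4 : 6 * (t ^ 3 * (μ + 2).choose 3) ≤ 6 * (d + 3).choose 3 := by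
    calc 6 * (t ^ 3 * (μ + 2).choose 3) = t ^ 3 * (6 * (μ + 2).choose 3) := by ring
      _ = t ^ 3 * ((μ + 2) * (μ + 1) * μ) := by rw [h1]
      _ ≤ _ := h3
      _ = 6 * (d + 3).choose 3 := by rw [h2]
  omega

theorem cons_ne {n : ℕ} (p : Fin n → ℂ) : (Fin.cons 1 p : Fin (n + 1) → ℂ) ≠ 0 := by
  intro h0
  have := congrFun h0 0
  simp at this

theorem mk_cons {n k : ℕ} (v : Fin k → Fin (n + 1) → ℂ) (hv : ∀ i, v i ≠ 0)
    (h0 : ∀ i, v i 0 ≠ 0) :
    (fun i => Projectivization.mk ℂ (v i) (hv i)) = fun i => Projectivization.mk ℂ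
      (Fin.cons 1 (fun j => v i j.succ / v i 0) : Fin (n + 1) → ℂ) (cons_ne _) := by
  funext i
  rw [Projectivization.mk_eq_mk_iff']
  refine ⟨v i 0, ?_⟩
  funext j
  refine Fin.cases ?_ (fun j => ?_) j
  · simp
  · simp only [Pi.smul_apply, Fin.cons_succ, smul_eq_mul]
    field_simp [h0 i]

theorem eval_aeval {α β : Type*} (D : MvPolynomial α ℂ) (g : α → MvPolynomial β ℂ) (w : β → ℂ) :
    eval w (aeval g D) = eval (fun x => eval w (g x)) D := by
  induction D using MvPolynomial.induction_on with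
  | C a => simp
  | add p q hp hq => rw [map_add, map_add, map_add, hp, hq]
  | mul_X p i hp => rw [map_mul, map_mul, map_mul, hp, aeval_X, eval_X]

/-- `N` points, the first `s` of which are given -/
def extend {N s n : ℕ} (v0 : Fin N × Fin (n + 1) → ℂ) (v : Fin s → Fin (n + 1) → ℂ) :
    Fin N → Fin (n + 1) → ℂ := fun i j => if h : i.1 < s then v ⟨i.1, h⟩ j else v0 (i, j)

theorem extend_castLE {N s n : ℕ} (hs : s ≤ N) (v0 : Fin N × Fin (n + 1) → ℂ)
    (v : Fin s → Fin (n + 1) → ℂ) (i : Fin s) : extend v0 v (Fin.castLE hs i) = v i := by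
  funext j
  show (if h : (Fin.castLE hs i).1 < s then v ⟨(Fin.castLE hs i).1, h⟩ j else _) = v i j
  rw [dif_pos (show (Fin.castLE hs i).1 < s from i.2)]
  rfl

theorem sub_points {N s n : ℕ} (hs : s ≤ N) (D : MvPolynomial (Fin N × Fin (n + 1)) ℂ)
    (hD : D ≠ 0) : ∃ (G : MvPolynomial (Fin s × Fin (n + 1)) ℂ) (v0 : Fin N × Fin (n + 1) → ℂ),
      G ≠ 0 ∧ ∀ v : Fin s → Fin (n + 1) → ℂ,
        eval (fun x : Fin s × Fin (n + 1) => v x.1 x.2) G =
          eval (fun x : Fin N × Fin (n + 1) => extend v0 v x.1 x.2) D := by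
  obtain ⟨v0, hv0⟩ : ∃ v0 : Fin N × Fin (n + 1) → ℂ, eval v0 D ≠ 0 := by
    by_contra hcon
    push Not at hcon
    exact hD (MvPolynomial.funext fun w => by rw [hcon w, map_zero])
  let g : Fin N × Fin (n + 1) → MvPolynomial (Fin s × Fin (n + 1)) ℂ := fun x =>
    if h : x.1.1 < s then X (⟨x.1.1, h⟩, x.2) else C (v0 x)
  have hev : ∀ v : Fin s → Fin (n + 1) → ℂ,
      eval (fun x : Fin s × Fin (n + 1) => v x.1 x.2) (aeval g D) =
        eval (fun x : Fin N × Fin (n + 1) => extend v0 v x.1 x.2) D := by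
    intro v
    have hfun : (fun x => eval (fun x : Fin s × Fin (n + 1) => v x.1 x.2) (g x)) =
        fun x : Fin N × Fin (n + 1) => extend v0 v x.1 x.2 := by
      funext x
      unfold extend
      by_cases h1 : x.1.1 < s
      · have e1 : g x = X (⟨x.1.1, h1⟩, x.2) := dif_pos h1
        rw [e1, eval_X, dif_pos h1]
      · have e1 : g x = C (v0 x) := dif_neg h1
        rw [e1, eval_C, dif_neg h1]
    rw [eval_aeval, hfun]
  refine ⟨aeval g D, v0, ?_, hev⟩
  intro h0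
  have h1 := hev (fun i j => v0 (Fin.castLE hs i, j))
  rw [h0, map_zero] at h1
  have h2 : (fun x : Fin N × Fin (n + 1) =>
      extend v0 (fun i j => v0 (Fin.castLE hs i, j)) x.1 x.2) = v0 := by
    funext x
    unfold extend
    by_cases h3 : x.1.1 < s
    · rw [dif_pos h3]
      rfl
    · rw [dif_neg h3]
  rw [h2] at h1
  exact hv0 h1.symm

/-- independent conditions for `N` points of multiplicity `μ` and for `s ≤ N` of them -/
theorem indep_sub {N s μ d0 : ℕ} (hs : s ≤ N) (v : Fin N → Fin (3 + 1) → ℂ)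
    (h0 : ∀ i, v i 0 ≠ 0) (m : Fin s → ℕ) (hm : ∀ i, m i ≤ μ) (hv : ∀ i, v i ≠ 0)
    (h : N * (μ + 2).choose 3 + Module.finrank ℂ
      ↥(H938R2.forms (3 + 1) d0 (fun _ : Fin N => μ) v) = (d0 + 3).choose 3) {d : ℕ} (hd : d0 ≤ d)
    (hv' : ∀ i : Fin s, v (Fin.castLE hs i) ≠ 0) :
    ∑ i, (m i + 2).choose 3 + Module.finrank ℂ ↥(forms d m (fun i => Projectivization.mk ℂ
      (v (Fin.castLE hs i)) (hv' i))) = (d + 3).choose 3 := by
  have h2 : H932R5.SurjAt (fun _ : Fin N => μ) (fun i (j : Fin (2 + 1)) =>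
      v i j.succ / v i 0) d0 := by
    apply TH3.IR.surjAt_of_finrank
    rw [← TH3.IR.pforms_cons d0 (fun _ : Fin N => μ)
      (fun i (j : Fin (2 + 1)) => v i j.succ / v i 0) (fun i => cons_ne _)]
    have h5 : (fun i => Projectivization.mk ℂ (v i) (hv i)) = fun i : Fin N =>
        Projectivization.mk ℂ (Fin.cons 1 (fun j : Fin (2 + 1) => v i j.succ / v i 0) :
          Fin (2 + 1 + 1) → ℂ) (cons_ne _) := mk_cons v hv h0
    rw [← h5]
    have h3 : TH3.IR.pforms d0 (fun _ : Fin N => μ)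
        (fun i => Projectivization.mk ℂ (v i) (hv i)) =
        H938R2.forms (3 + 1) d0 (fun _ : Fin N => μ) v :=
      Pool.Agent.TH176.FB.forms_eq_symbolic v hv
    rw [h3, Finset.sum_const, Finset.card_univ, Fintype.card_fin, smul_eq_mul]
    exact h.symm
  have h4 := ((surj_restrict hs hm h2).mono_d hd).finrank
  rw [← TH3.IR.pforms_cons d m _ (fun i => cons_ne _)] at h4
  have h5 : (fun i : Fin s => Projectivization.mk ℂ (v (Fin.castLE hs i)) (hv' i)) =
      fun i : Fin s => Projectivization.mk ℂ (Fin.cons 1 (fun j : Fin (2 + 1) =>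
        v (Fin.castLE hs i) j.succ / v (Fin.castLE hs i) 0) : Fin (2 + 1 + 1) → ℂ) (cons_ne _) :=
    mk_cons (fun i => v (Fin.castLE hs i)) hv' (fun i => h0 _)
  rw [h5]
  exact h4

theorem partC (s t : ℕ) (ht : 3 ≤ t) (hs : s ≤ t ^ 3) (m : Fin s → ℕ) :
    Generally (fun P : Fin s → ℙ ℂ (Fin (3 + 1) → ℂ) => ∀ d : ℕ,
      (∀ i, t * m i + t ≤ d + 2) →
        dim d m P = vdim d m ∧ ¬ LineCondition d m ∧ ¬ QuadricCondition d m ∧
          LafaceUgaglia d m P) := by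
  classical
  set μ : ℕ := Finset.univ.sup m with hμ
  have hm : ∀ i, m i ≤ μ := fun i => Finset.le_sup (f := m) (Finset.mem_univ i)
  set d0 : ℕ := t * μ + t - 2 with hd0
  have hd02 : t * μ + t ≤ d0 + 2 := by omega
  obtain ⟨D, hD, h⟩ := Pool.Agent.TH176.FB.fat_indep 2 t μ d0 (by omega) (by
    have : 2 * t * μ = 2 * (t * μ) := by ring
    omega)
  have hD' : D * ∏ i : Fin (t ^ 3), X (i, (0 : Fin (3 + 1))) ≠ 0 :=
    mul_ne_zero hD (Finset.prod_ne_zero_iff.2 fun i _ => X_ne_zero _)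
  obtain ⟨G, v0, hG, hev⟩ := sub_points hs _ hD'
  refine generally_of_poly G hG fun v hv hp => ?_
  rw [hev v, map_mul, map_prod] at hp
  have h0 : ∀ i, extend v0 v i 0 ≠ 0 := by
    intro i
    have := Finset.prod_ne_zero_iff.1 (right_ne_zero_of_mul hp) i (Finset.mem_univ i)
    rwa [eval_X] at this
  have hvi : ∀ i, extend v0 v i ≠ 0 := fun i hi => h0 i (by rw [hi]; rfl)
  have h1 : Module.finrank ℂ ↥(H938R2.forms (3 + 1) d0 (fun _ : Fin (t ^ 3) => μ)
      (extend v0 v)) = (d0 + 3).choose 3 - t ^ 3 * (μ + 2).choose 3 :=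
    h (extend v0 v) (left_ne_zero_of_mul hp)
  have h2 : t ^ 3 * (μ + 2).choose 3 + Module.finrank ℂ ↥(H938R2.forms (3 + 1) d0
      (fun _ : Fin (t ^ 3) => μ) (extend v0 v)) = (d0 + 3).choose 3 := by
    have h4 := num (t := t) (μ := μ) (d := d0) (by omega) hd02
    omega
  intro d hd
  have hext : ∀ i : Fin s, extend v0 v (Fin.castLE hs i) = v i := extend_castLE hs v0 v
  have h3d : ∀ i, 3 * m i ≤ d := fun i => by
    have h6 := hd i
    have h7 : 3 * m i ≤ t * m i := Nat.mul_le_mul_right _ ht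
    omega
  have hP : (fun i => Projectivization.mk ℂ (v i) (hv i)) = fun i : Fin s =>
      Projectivization.mk ℂ (extend v0 v (Fin.castLE hs i)) (hvi _) := by
    funext i
    congr 1
    exact (hext i).symm
  rw [hP]
  refine good ?_ h3d
  rcases Nat.eq_zero_or_pos s with hs0 | hs0
  · subst hs0
    have h5 := (H932R5.SurjAt.of_zero (w := m) (fun i => i.elim0)
      (fun i : Fin 0 => (0 : Fin (2 + 1) → ℂ)) d).finrank
    rw [← TH3.IR.pforms_cons d m _ (fun i => cons_ne _)] at h5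
    rw [← h5]
    congr 1
    unfold forms TH3.IR.pforms
    rw [iInf_of_empty, iInf_of_empty]
  · have hd1 : d0 ≤ d := by
      obtain ⟨i, _, hi⟩ := Finset.exists_mem_eq_sup (Finset.univ : Finset (Fin s))
        ⟨⟨0, hs0⟩, Finset.mem_univ _⟩ m
      have h4 := hd i
      rw [← hi, ← hμ] at h4
      omega
    exact indep_sub hs (extend v0 v) h0 m hm hvi h2 hd1 (fun i => hvi _)

/-! ### `t ^ 3` points of equal multiplicity -/

theorem three_mul_le {t μ d : ℕ} (ht : 3 ≤ t)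
    (h : t ^ 3 * (μ + 2).choose 3 < (d + 3).choose 3) : 3 * μ ≤ d := by
  by_contra hcon
  push Not at hcon
  have h1 := six_choose μ
  have h2 := six_choose (d + 1)
  have e : d + 1 + 2 = d + 3 := by ring
  rw [e] at h2
  have h3 : (d + 3) * (d + 1 + 1) * (d + 1) ≤ (3 * μ + 2) * (3 * μ + 1) * (3 * μ) :=
    Nat.mul_le_mul (Nat.mul_le_mul (by omega) (by omega)) (by omega)
  have h4 : (3 * μ + 2) * (3 * μ + 1) * (3 * μ) ≤ 3 ^ 3 * ((μ + 2) * (μ + 1) * μ) := by
    zify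
    nlinarith [mul_nonneg (Int.natCast_nonneg μ) (Int.natCast_nonneg μ), Int.natCast_nonneg μ]
  have h5 : 3 ^ 3 * ((μ + 2) * (μ + 1) * μ) ≤ t ^ 3 * ((μ + 2) * (μ + 1) * μ) :=
    Nat.mul_le_mul_right _ (Nat.pow_le_pow_left ht 3)
  have h6 : 6 * (t ^ 3 * (μ + 2).choose 3) = t ^ 3 * ((μ + 2) * (μ + 1) * μ) := by
    rw [← h1]
    ring
  omega

theorem partB (t μ d : ℕ) (ht : 3 ≤ t) (hμ : 1 ≤ μ)
    (hc : ∀ c : ℕ, d = t * μ + c → c + 3 ≤ t → t ^ 3 < (t + c + 3).choose 3 →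
      (c + 3).choose 3 ≤ μ) :
    Generally (fun P : Fin (t ^ 3) → ℙ ℂ (Fin (3 + 1) → ℂ) =>
      dim d (fun _ => μ) P = edim d (fun _ : Fin (t ^ 3) => μ) ∧
        LafaceUgaglia d (fun _ => μ) P) := by
  obtain ⟨D, hD, h⟩ := Pool.Agent.TH176.FB.fat_space t μ d (by omega) hμ hc
  refine generally_of_poly D hD fun v hv hp => ?_
  have h1 := h v hp
  have h2 : forms d (fun _ : Fin (t ^ 3) => μ) (fun i => Projectivization.mk ℂ (v i) (hv i)) =
      H938R2.forms (3 + 1) d (fun _ : Fin (t ^ 3) => μ) v :=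
    Pool.Agent.TH176.FB.forms_eq_symbolic v hv
  have h3 : Module.finrank ℂ ↥(forms d (fun _ : Fin (t ^ 3) => μ)
      (fun i => Projectivization.mk ℂ (v i) (hv i))) =
      (d + 3).choose 3 - t ^ 3 * (μ + 2).choose 3 := by
    rw [h2]
    exact h1
  have h4 : dim d (fun _ : Fin (t ^ 3) => μ) (fun i => Projectivization.mk ℂ (v i) (hv i)) =
      edim d (fun _ : Fin (t ^ 3) => μ) := by
    unfold dim edim vdim
    rw [h3, Finset.sum_const, Finset.card_univ, Fintype.card_fin, nsmul_eq_mul]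
    have e : ((t ^ 3 : ℕ) : ℤ) * ((μ + 2).choose 3 : ℤ) = ((t ^ 3 * (μ + 2).choose 3 : ℕ) : ℤ) := by
      push_cast
      rfl
    rw [e]
    omega
  refine ⟨h4, fun hne hcr => ?_⟩
  have h5 : t ^ 3 * (μ + 2).choose 3 < (d + 3).choose 3 := by
    by_contra hcon
    push Not at hcon
    rw [Nat.sub_eq_zero_of_le hcon] at h3
    apply hne
    have : FiniteDimensional ℂ ↥(forms d (fun _ : Fin (t ^ 3) => μ)
        (fun i => Projectivization.mk ℂ (v i) (hv i))) := by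
      have : FiniteDimensional ℂ ↥(homogeneousSubmodule (Fin (3 + 1)) ℂ d) := by
        have h6 := TH3.IR.finrank_forms (r := 3) (by norm_num) d
        have h7 : 0 < (d + 3).choose 3 := Nat.choose_pos (by omega)
        exact Module.finite_of_finrank_pos (by rw [h6]; exact h7)
      exact Submodule.finiteDimensional_of_le inf_le_left
    exact Submodule.finrank_eq_zero.1 h3
  have h6 : ∀ _ : Fin (t ^ 3), 3 * μ ≤ d := fun _ => three_mul_le ht h5
  exact lu_of_not (by unfold Special; rw [h4]; exact lt_irrefl _) (not_line h6)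
    (not_quadric_of h6) hne hcr

/-- there are no exceptions for `t ≤ 5` -/
theorem small {t c : ℕ} (ht : 3 ≤ t) (ht5 : t ≤ 5) (hc : c + 3 ≤ t) :
    (t + c + 3).choose 3 ≤ t ^ 3 := by
  have hc2 : c ≤ 2 := by omega
  interval_cases t <;> interval_cases c <;> first | omega | decide

/-- The Laface–Ugaglia conjecture for many general points, outside windows of degrees. -/
theorem result :
    (∀ s t : ℕ, 3 ≤ t → s ≤ t ^ 3 → ∀ m : Fin s → ℕ,
      Generally (fun P : Fin s → ℙ ℂ (Fin (3 + 1) → ℂ) => ∀ d : ℕ,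
        (∀ i, t * m i + t ≤ d + 2) →
          dim d m P = vdim d m ∧ ¬ LineCondition d m ∧ ¬ QuadricCondition d m ∧
            LafaceUgaglia d m P)) ∧
    (∀ s : ℕ, 27 ≤ s → ∀ m : Fin s → ℕ,
      Generally (fun P : Fin s → ℙ ℂ (Fin (3 + 1) → ℂ) => ∀ d : ℕ,
        ((s : ℝ) ^ ((2 : ℝ) / 3) * d < ∑ i, (m i : ℝ) →
          forms d m P = ⊥ ∧ LafaceUgaglia d m P) ∧
        ((∀ i, (s : ℝ) ^ ((1 : ℝ) / 3) * ((m i : ℝ) + 2) + 2 ≤ d) →
          dim d m P = vdim d m ∧ ¬ LineCondition d m ∧ ¬ QuadricCondition d m ∧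
            LafaceUgaglia d m P))) ∧
    (∀ t μ d : ℕ, 3 ≤ t → 1 ≤ μ →
      (t ≤ 5 ∨ ∀ c : ℕ, d = t * μ + c → c + 3 ≤ t → t ^ 3 < (t + c + 3).choose 3 →
        (c + 3).choose 3 ≤ μ) →
      Generally (fun P : Fin (t ^ 3) → ℙ ℂ (Fin (3 + 1) → ℂ) =>
        ¬ Special d (fun _ => μ) P ∧ LafaceUgaglia d (fun _ => μ) P)) := by
  refine ⟨fun s t ht hs m => partC s t ht hs m, fun s hs m => ?_, fun t μ d ht hμ hc => ?_⟩
  · obtain ⟨U, hU, hU', h⟩ := partA s hs m
    refine ⟨U, hU, hU', fun P hP d => ⟨fun hd => ?_, (h P hP d).2⟩⟩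
    have h1 := (h P hP d).1 hd
    exact ⟨h1, fun hne => absurd h1 hne⟩
  · obtain ⟨U, hU, hU', h⟩ := partB t μ d ht hμ (by
      rcases hc with h5 | hc
      · intro c _ hct hlt
        have := small ht h5 hct
        omega
      · exact hc)
    refine ⟨U, hU, hU', fun P hP => ⟨?_, (h P hP).2⟩⟩
    unfold Special
    rw [(h P hP).1]
    exact lt_irrefl _

end Pool.Agent.Results.MP_ed30a9_ag.ManyPoints
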